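import Pool.Agent.TH78.OP.Local

set_option autoImplicit false

open Finset Pool.Agent.H504R2 Pool.Agent.H504D
open scoped WithZero

namespace Pool.Agent.TH78.OP

variable {K : Type} [Field K] {v : Valuation K ℤᵐ⁰} {p q e : ℕ} {φ : K → K}

lemma le_exp_neg_one {x : ℤᵐ⁰} (h : x < 1) : x ≤ WithZero.exp (-1 : ℤ) := by
  by_cases h0 : x = 0
  · rw [h0]; exact zero_le
  · rw [← WithZero.exp_log h0] at h ⊢
    rw [← WithZero.exp_zero, WithZero.exp_lt_exp] at h
    rw [WithZero.exp_le_exp]
    omega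

lemma exp_neg_mul (a b : ℕ) : WithZero.exp (-(a : ℤ)) * WithZero.exp (-(b : ℤ)) =
    WithZero.exp (-((a + b : ℕ) : ℤ)) := by
  rw [← WithZero.exp_add]; congr 1; push_cast; ring

lemma exp_neg_le {a b : ℕ} (h : b ≤ a) : WithZero.exp (-(a : ℤ)) ≤ WithZero.exp (-(b : ℤ)) := by
  rw [WithZero.exp_le_exp]; omega

lemma exp_neg_lt_one {a : ℕ} (h : 1 ≤ a) : WithZero.exp (-(a : ℤ)) < 1 := by
  rw [← WithZero.exp_zero, WithZero.exp_lt_exp]; omega

section

variable (T : TameL v φ) {y : ℕ → K} {n : ℕ} {R : ℤᵐ⁰}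

lemma Good.iter (hv : IsPlace v p q) (hp : p.Prime) (O : Orb v φ y n R) {M : ℕ}
    (h : Good T y R M (WithZero.exp (-((1 : ℕ) : ℤ))) (WithZero.exp (-((1 : ℕ) : ℤ)))) (j : ℕ) :
    Good T y R (p ^ (j + 1) * M) (WithZero.exp (-((j + 2 : ℕ) : ℤ))) (WithZero.exp (-((j + 1 : ℕ) : ℤ))) := by
  have hvp : v (p : K) ≤ WithZero.exp (-((1 : ℕ) : ℤ)) := by simpa using le_exp_neg_one hv.p_lt
  induction j with
  | zero =>
    have h1 := h.next T hv hp O (exp_neg_lt_one le_rfl).le
    have hmx : max (v (p : K)) (WithZero.exp (-((1 : ℕ) : ℤ))) ≤ WithZero.exp (-((1 : ℕ) : ℤ)) :=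
      max_le hvp le_rfl
    rw [zero_add, pow_one]
    apply h1.mono
    · rw [zero_add]
      calc _ ≤ WithZero.exp (-((1 : ℕ) : ℤ)) * WithZero.exp (-((1 : ℕ) : ℤ)) := mul_le_mul' le_rfl hmx
        _ = _ := exp_neg_mul 1 1
    · apply max_le le_rfl
      calc _ ≤ WithZero.exp (-((1 : ℕ) : ℤ)) * WithZero.exp (-((1 : ℕ) : ℤ)) := mul_le_mul' le_rfl hmx
        _ = WithZero.exp (-((1 + 1 : ℕ) : ℤ)) := exp_neg_mul 1 1
        _ ≤ _ := exp_neg_le (by omega)
  | succ j ih =>
    have h1 := ih.next T hv hp O (exp_neg_lt_one (by omega)).le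
    have hmx : max (v (p : K)) (WithZero.exp (-((j + 1 : ℕ) : ℤ))) ≤ WithZero.exp (-((1 : ℕ) : ℤ)) :=
      max_le hvp (exp_neg_le (by omega))
    rw [pow_succ', mul_assoc]
    apply h1.mono
    · calc _ ≤ WithZero.exp (-((j + 2 : ℕ) : ℤ)) * WithZero.exp (-((1 : ℕ) : ℤ)) := mul_le_mul' le_rfl hmx
        _ = WithZero.exp (-((j + 2 + 1 : ℕ) : ℤ)) := exp_neg_mul _ _
        _ ≤ _ := exp_neg_le (by omega)
    · apply max_le (exp_neg_le (by omega))
      calc _ ≤ WithZero.exp (-((j + 1 : ℕ) : ℤ)) * WithZero.exp (-((1 : ℕ) : ℤ)) := mul_le_mul' le_rfl hmx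
        _ = WithZero.exp (-((j + 1 + 1 : ℕ) : ℤ)) := exp_neg_mul _ _
        _ ≤ _ := exp_neg_le (by omega)

/-- once the precision beats `p` the orbit stands still -/
lemma Good.stop (hv : IsPlace v p q) (hp : p.Prime) (O : Orb v φ y n R) {M : ℕ} {θ : ℤᵐ⁰}
    (hθ : θ < v (p : K)) (h : Good T y R M θ θ) : y M = y 0 := by
  by_contra hne
  have hN : 0 < v (y M - y 0) := Tame.pos_of_ne hne
  have hθ1 : θ < 1 := hθ.trans hv.p_lt
  have hall : ∀ j, Good T y R (p ^ j * M) θ θ ∧ 0 < v (y (p ^ j * M) - y 0) := by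
    intro j
    induction j with
    | zero => rw [pow_zero, one_mul]; exact ⟨h, hN⟩
    | succ j ih =>
      rw [pow_succ', mul_assoc]
      have hmx : max (v (p : K)) θ ≤ 1 := max_le hv.p_lt.le hθ1.le
      refine ⟨(ih.1.next T hv hp O hθ1.le).mono T ?_ ?_, ?_⟩
      · calc _ ≤ θ * 1 := mul_le_mul' le_rfl hmx
          _ = θ := mul_one _
      · apply max_le le_rfl
        calc _ ≤ θ * 1 := mul_le_mul' le_rfl hmx
          _ = θ := mul_one _
      · obtain ⟨G, h1, h2⟩ := sumG T O ih.1.mult 0 p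
        rw [zero_add, zero_add] at h1
        rw [h1, map_mul]
        have hG : v G = v (p : K) := by
          have e1 : G = (G - p) + p := by ring
          rw [e1]
          exact Valuation.map_add_eq_of_lt_right _ (lt_of_le_of_lt h2 hθ)
        rw [hG]
        exact mul_pos ih.2 (lt_of_le_of_lt zero_le hθ)
  obtain ⟨j, n', hn', hnn⟩ := Nat.exists_eq_pow_mul_and_not_dvd O.n1.ne' p hp.ne_one
  obtain ⟨hg, hpos⟩ := hall j
  obtain ⟨G, h1, h2⟩ := sumG T O hg.mult 0 n'
  rw [zero_add, zero_add] at h1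
  have hG : v G = 1 := by
    have e1 : G = (G - n') + n' := by ring
    have hvn : v (n' : K) = 1 := hv.v_coprime ((Nat.Prime.coprime_iff_not_dvd hp).2 hn').symm
    rw [e1, Valuation.map_add_eq_of_lt_right _ (by rw [hvn]; exact lt_of_le_of_lt h2 hθ1), hvn]
  have h3 : y (n' * (p ^ j * M)) = y 0 := by
    have h4 := per_mul' O 0 M
    rw [zero_add] at h4
    rw [← h4]
    congr 1
    rw [hnn]; ring
  rw [h3, sub_self] at h1
  have h4 := congrArg v h1
  rw [map_zero, map_mul, hG, mul_one] at h4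
  exact hpos.ne h4

/-- the first approximation -/
lemma Good.start (hv : IsPlace v p q) (hq : 2 ≤ q) (O : Orb v φ y n R) :
    ∃ T0, 1 ≤ T0 ∧ T0 ≤ q ∧ (y (T0 * (q - 1)) = y 0 ∨
      Good T y R (T0 * (q - 1)) (WithZero.exp (-((1 : ℕ) : ℤ))) (WithZero.exp (-((1 : ℕ) : ℤ)))) := by
  classical
  -- a first return to the residue class
  obtain ⟨T0, hT1, hTq, hT⟩ : ∃ T0, 1 ≤ T0 ∧ T0 ≤ q ∧ v (y T0 - y 0) < R := by
    by_contra hcon
    push Not at hcon
    have hall : ∀ i j : ℕ, i < j → j ≤ q → v (y j - y i) = R := by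
      intro i j hij hjq
      have h1 := hcon (j - i) (by omega) (by omega)
      have h2 := shift T O (j - i) 0 i
      rw [zero_add, Nat.sub_add_cancel hij.le] at h2
      rw [← h2] at h1
      exact le_antisymm (O.mx _ _) h1
    obtain ⟨i0, j0, h0⟩ := O.att
    have hab : y i0 - y j0 ≠ 0 := by
      intro h
      rw [h, map_zero] at h0
      exact O.R0.ne h0
    have hall' : ∀ i ∈ range (q + 1), ∀ j ∈ range (q + 1), i ≠ j → v (y i - y j) = R := by
      intro i hi j hj hij
      rw [mem_range] at hi hj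
      rcases lt_or_gt_of_ne hij with h | h
      · rw [Valuation.map_sub_swap]; exact hall i j h (by omega)
      · exact hall j i h (by omega)
    have h3 := hv.card_le ((range (q + 1)).image fun t => y t / (y i0 - y j0)) (by
      intro a ha b hb hab'
      rw [mem_image] at ha hb
      obtain ⟨i, hi, rfl⟩ := ha
      obtain ⟨j, hj, rfl⟩ := hb
      have hij : i ≠ j := by rintro rfl; exact hab' rfl
      rw [← sub_div, map_div₀, hall' i hi j hj hij, h0, div_self O.R0.ne'])
    rw [card_image_of_injOn, card_range] at h3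
    · omega
    · intro i hi j hj hij
      by_contra hne
      have h4 := hall' i hi j hj hne
      have h5 : y i = y j := (div_left_inj' hab).1 hij
      rw [h5, sub_self, map_zero] at h4
      exact O.R0.ne h4
  refine ⟨T0, hT1, hTq, ?_⟩
  by_cases hper : y (T0 * (q - 1)) = y 0
  · exact Or.inl hper
  right
  have hdisc : ∀ x : K, v x < R → v x ≤ WithZero.exp (-((1 : ℕ) : ℤ)) * R := by
    intro x hx
    have h1 : v x / R < 1 := (div_lt_one₀ O.R0).2 hx
    have h2 := le_exp_neg_one h1
    rw [div_le_iff₀ O.R0] at h2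
    simpa using h2
  have hcl : ∀ s t, v (y (t + T0 * s) - y t) < R := by
    intro s t
    induction s with
    | zero => simpa using O.R0
    | succ s ih =>
      have h1 : v (y (t + T0 * s + T0) - y (t + T0 * s)) < R := by
        rw [shift0 T O]; exact hT
      have e1 : y (t + T0 * (s + 1)) - y t = (y (t + T0 * s + T0) - y (t + T0 * s)) + (y (t + T0 * s) - y t) := by
        rw [show t + T0 * (s + 1) = t + T0 * s + T0 by ring]; ring
      rw [e1]
      exact Valuation.map_add_lt _ h1 ih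
  have hcl' : ∀ s t, v (y (t + T0 * s) - y t) ≤ WithZero.exp (-((1 : ℕ) : ℤ)) * R := fun s t =>
    hdisc _ (hcl s t)
  refine ⟨?_, ?_⟩
  · have := hcl' (q - 1) 0
    rwa [zero_add] at this
  · intro t
    set M := T0 * (q - 1) with hM
    set lam := Pd T y t t T0 with hlam
    have hle : v lam ≤ 1 := Pd_le T O _ _ _
    have h1 : ∀ s, v (Pd T y (t + M) t (T0 * s) - lam ^ s) ≤ WithZero.exp (-((1 : ℕ) : ℤ)) := by
      intro s
      induction s with
      | zero => simp [Pd]
      | succ s ih =>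
        have h3 : v (Pd T y (t + M + T0 * s) (t + T0 * s) T0 - lam) ≤ WithZero.exp (-((1 : ℕ) : ℤ)) := by
          apply Pd_cmp T O
          · have := hcl' (q - 1 + s) t
            rwa [show t + T0 * (q - 1 + s) = t + M + T0 * s by rw [hM]; ring] at this
          · exact hcl' s t
        have e : Pd T y (t + M) t (T0 * (s + 1)) - lam ^ (s + 1) =
            (Pd T y (t + M) t (T0 * s) - lam ^ s) * lam +
            Pd T y (t + M) t (T0 * s) * (Pd T y (t + M + T0 * s) (t + T0 * s) T0 - lam) := by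
          rw [show T0 * (s + 1) = T0 * s + T0 by ring, Pd_add, pow_succ]; ring
        rw [e]
        refine (Valuation.map_add _ _ _).trans (max_le ?_ ?_)
        · rw [map_mul]
          calc _ ≤ WithZero.exp (-((1 : ℕ) : ℤ)) * 1 := mul_le_mul' ih hle
            _ = _ := mul_one _
        · rw [map_mul]
          calc _ ≤ 1 * WithZero.exp (-((1 : ℕ) : ℤ)) := mul_le_mul' (Pd_le T O _ _ _) h3
            _ = _ := one_mul _
    have hexp : WithZero.exp (-((1 : ℕ) : ℤ)) < (1 : ℤᵐ⁰) := exp_neg_lt_one le_rfl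
    -- the multiplier is a unit
    have hN : 0 < v (y M - y 0) := Tame.pos_of_ne hper
    have hunit : v (Pd T y (t + M) t M) = 1 := by
      have h2 := diffs T O (t + M) t M
      have h3 := congrArg v h2
      rw [map_mul, shift T O] at h3
      rw [shift0 T O] at h3
      have h4 : v (y M - y 0) * 1 = v (y M - y 0) * v (Pd T y (t + M) t M) := by rw [mul_one]; exact h3
      exact (mul_left_cancel₀ hN.ne' h4).symm
    have h5 := h1 (q - 1)
    rw [← hM] at h5
    have hlamq : v (lam ^ (q - 1)) = 1 := by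
      have e1 : lam ^ (q - 1) = (lam ^ (q - 1) - Pd T y (t + M) t M) + Pd T y (t + M) t M := by ring
      rw [e1, Valuation.map_add_eq_of_lt_right _ _, hunit]
      rw [hunit, Valuation.map_sub_swap]
      exact lt_of_le_of_lt h5 hexp
    have hlam1 : v lam = 1 := by
      rcases hle.lt_or_eq with h | h
      · exfalso
        rw [map_pow] at hlamq
        have := pow_lt_one₀ (zero_le) h (show q - 1 ≠ 0 by omega)
        rw [hlamq] at this
        exact lt_irrefl _ this
      · exact h
    have h6 := hv.unit_pow lam hlam1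
    have h7 : v (lam ^ (q - 1) - 1) ≤ WithZero.exp (-((1 : ℕ) : ℤ)) := by simpa using le_exp_neg_one h6
    have e : Pd T y (t + M) t M - 1 = (Pd T y (t + M) t M - lam ^ (q - 1)) + (lam ^ (q - 1) - 1) := by ring
    rw [e]
    exact (Valuation.map_add _ _ _).trans (max_le h5 h7)

end

/-- **Periods of tame maps at one place.** -/
theorem one_place_period (hv : IsPlace v p q) (hp : p.Prime) (hev : WithZero.exp (-(e : ℤ)) ≤ v (p : K))
    (T : TameL v φ) {u : K} {n : ℕ} (hn : 0 < n) (hu : φ^[n] u = u) :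
    φ^[q.factorial * (q - 1) * p ^ (e + 1)] u = u := by
  classical
  have hq : 2 ≤ q := by
    have := hv.card_le ({0, 1} : Finset K) (by
      intro x hx y hy h
      rw [mem_insert, mem_singleton] at hx hy
      rcases hx with rfl | rfl <;> rcases hy with rfl | rfl
      · exact absurd rfl h
      · simp
      · simp
      · exact absurd rfl h)
    rwa [Finset.card_pair zero_ne_one] at this
  set y : ℕ → K := fun t => φ^[t] u with hy
  have hstep : ∀ t, y (t + 1) = φ (y t) := fun t => Function.iterate_succ_apply' _ _ _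
  have hper : ∀ t, y (t + n) = y t := by
    intro t
    simp only [hy]
    rw [Function.iterate_add_apply, hu]
  obtain ⟨⟨i0, j0⟩, -, hmax0⟩ := exists_max_image (range n ×ˢ range n)
    (fun x => v (y x.1 - y x.2)) ⟨(0, 0), by simp [hn]⟩
  simp only at hmax0
  have hpm : ∀ t m, y (t + n * m) = y t := by
    intro t m
    induction m with
    | zero => simp
    | succ m ih => rw [show t + n * (m + 1) = t + n * m + n by ring, hper, ih]
  have hmod : ∀ i, y i = y (i % n) := by
    intro i
    conv_lhs => rw [← Nat.mod_add_div i n]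
    exact hpm _ _
  have hmax : ∀ i j, v (y i - y j) ≤ v (y i0 - y j0) := by
    intro i j
    rw [hmod i, hmod j]
    exact hmax0 (i % n, j % n) (by simp [Nat.mod_lt _ hn])
  by_cases hR : v (y i0 - y j0) = 0
  · have h1 := hmax (q.factorial * (q - 1) * p ^ (e + 1)) 0
    rw [hR, le_zero_iff, Valuation.zero_iff, sub_eq_zero] at h1
    exact h1
  have O : Orb v φ y n (v (y i0 - y j0)) := ⟨hn, hstep, hper, zero_lt_iff.2 hR, hmax, ⟨i0, j0, rfl⟩⟩
  obtain ⟨T0, hT1, hTq, h⟩ := Good.start T hv hq O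
  have hkey : y (p ^ (e + 1) * (T0 * (q - 1))) = y 0 := by
    rcases h with h | h
    · -- already periodic
      have hs : ∀ m, y (m * (T0 * (q - 1))) = y 0 := by
        intro m
        induction m with
        | zero => simp
        | succ m ih =>
          have h2 := shift T O (T0 * (q - 1)) 0 (m * (T0 * (q - 1)))
          rw [h, sub_self, map_zero, Valuation.zero_iff, sub_eq_zero, zero_add] at h2
          rw [show (m + 1) * (T0 * (q - 1)) = T0 * (q - 1) + m * (T0 * (q - 1)) by ring, h2, ih]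
      exact hs _
    · have h2 := Good.iter T hv hp O h e
      have hlt : WithZero.exp (-((e + 1 : ℕ) : ℤ)) < v (p : K) := by
        refine lt_of_lt_of_le ?_ hev
        rw [WithZero.exp_lt_exp]; push_cast; omega
      exact (h2.mono T (exp_neg_le (by omega)) le_rfl).stop T hv hp O hlt
  obtain ⟨c, hc⟩ := Nat.dvd_factorial hT1 hTq
  have hM : q.factorial * (q - 1) * p ^ (e + 1) = c * (p ^ (e + 1) * (T0 * (q - 1))) := by
    rw [hc]; ring
  have hs : ∀ m, y (m * (p ^ (e + 1) * (T0 * (q - 1)))) = y 0 := by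
    intro m
    induction m with
    | zero => simp
    | succ m ih =>
      have h2 := shift T O (p ^ (e + 1) * (T0 * (q - 1))) 0 (m * (p ^ (e + 1) * (T0 * (q - 1))))
      rw [hkey, sub_self, map_zero, Valuation.zero_iff, sub_eq_zero, zero_add] at h2
      rw [show (m + 1) * (p ^ (e + 1) * (T0 * (q - 1))) = p ^ (e + 1) * (T0 * (q - 1)) +
        m * (p ^ (e + 1) * (T0 * (q - 1))) by ring, h2, ih]
  rw [hM]
  exact hs c

end Pool.Agent.TH78.OP
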