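import Pool.Agent.TH78.OP.TameL

set_option autoImplicit false

open Finset Pool.Agent.H504R2 Pool.Agent.H504D
open scoped WithZero

namespace Pool.Agent.TH78.OP

variable {K : Type} [Field K] {v : Valuation K ℤᵐ⁰} {p q e : ℕ} {φ : K → K}

/-- a periodic orbit of diameter `R > 0` -/
structure Orb (v : Valuation K ℤᵐ⁰) (φ : K → K) (y : ℕ → K) (n : ℕ) (R : ℤᵐ⁰) : Prop where
  n1 : 0 < n
  step : ∀ t, y (t + 1) = φ (y t)
  per : ∀ t, y (t + n) = y t
  R0 : 0 < R
  mx : ∀ i j, v (y i - y j) ≤ R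
  att : ∃ i j, v (y i - y j) = R

/-- products of cofactors -/
def Pd (T : TameL v φ) (y : ℕ → K) (i j s : ℕ) : K := ∏ l ∈ range s, T.h (y (i + l)) (y (j + l))

section

variable (T : TameL v φ) {y : ℕ → K} {n : ℕ} {R : ℤᵐ⁰}

lemma diffs (O : Orb v φ y n R) (i j s : ℕ) : y (i + s) - y (j + s) = (y i - y j) * Pd T y i j s := by
  induction s with
  | zero => simp [Pd]
  | succ s ih =>
    rw [Pd, prod_range_succ, ← mul_assoc]
    change _ = (y i - y j) * Pd T y i j s * _
    rw [← ih, ← T.eq, ← O.step, ← O.step]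
    rfl

lemma g_le (O : Orb v φ y n R) : (∀ i j, v (T.h (y i) (y j)) ≤ 1) ∧
    ∀ i j i' j', v (T.h (y i) (y j) - T.h (y i') (y j')) * R ≤ max (v (y i - y i')) (v (y j - y j')) := by
  obtain ⟨i0, j0, h0⟩ := O.att
  have hab : y i0 ≠ y j0 := by
    intro h
    rw [h, sub_self, map_zero] at h0
    exact O.R0.ne h0
  have hH : v (T.h (y i0) (y j0)) ≤ 1 := by
    have h1 : v (y (i0 + 1) - y (j0 + 1)) ≤ R := O.mx _ _
    rw [O.step, O.step, T.v_map, h0] at h1
    have h2 : R * v (T.h (y i0) (y j0)) ≤ R * 1 := by rwa [mul_one]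
    exact le_of_mul_le_mul_left h2 O.R0
  have hnear : ∀ i, v (y i - y i0) ≤ v (y i0 - y j0) := fun i => by rw [h0]; exact O.mx _ _
  have hL : ∀ i i' j, v (T.h (y i) (y j) - T.h (y i') (y j)) * R ≤ v (y i - y i') := by
    intro i i' j
    have h1 := T.lip (y i0) (y j0) (y i) (y i') (y j) hab (hnear _) (hnear _) (hnear _)
    rw [h0] at h1
    calc _ ≤ v (T.h (y i0) (y j0)) * v (y i - y i') := h1
      _ ≤ 1 * v (y i - y i') := by gcongr
      _ = _ := one_mul _
  refine ⟨fun i j => (T.le_max hab (hnear i) (hnear j)).trans hH, ?_⟩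
  intro i j i' j'
  have e : T.h (y i) (y j) - T.h (y i') (y j') = (T.h (y i) (y j) - T.h (y i') (y j)) +
      (T.h (y j) (y i') - T.h (y j') (y i')) := by rw [T.symm (y j) (y i'), T.symm (y j') (y i')]; ring
  rw [e]
  rcases le_total (v (T.h (y i) (y j) - T.h (y i') (y j))) (v (T.h (y j) (y i') - T.h (y j') (y i'))) with h | h
  · calc _ ≤ v (T.h (y j) (y i') - T.h (y j') (y i')) * R :=
          mul_le_mul' ((Valuation.map_add _ _ _).trans (max_le h le_rfl)) le_rfl
      _ ≤ _ := (hL j j' i').trans (le_max_right _ _)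
  · calc _ ≤ v (T.h (y i) (y j) - T.h (y i') (y j)) * R :=
          mul_le_mul' ((Valuation.map_add _ _ _).trans (max_le le_rfl h)) le_rfl
      _ ≤ _ := (hL i i' j).trans (le_max_left _ _)

lemma Pd_le (O : Orb v φ y n R) (i j s : ℕ) : v (Pd T y i j s) ≤ 1 := by
  rw [Pd, map_prod]
  exact prod_le_one' fun l _ => (g_le T O).1 _ _

lemma per_mul' (O : Orb v φ y n R) (t m : ℕ) : y (t + m * n) = y t := by
  induction m with
  | zero => simp
  | succ m ih => rw [show t + (m + 1) * n = t + m * n + n by ring, O.per, ih]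

include T in
/-- distances are shift invariant -/
lemma shift (O : Orb v φ y n R) (i j s : ℕ) : v (y (i + s) - y (j + s)) = v (y i - y j) := by
  have hle : ∀ s i j, v (y (i + s) - y (j + s)) ≤ v (y i - y j) := by
    intro s i j
    rw [diffs T O, map_mul]
    calc _ ≤ v (y i - y j) * 1 := by gcongr; exact Pd_le T O _ _ _
      _ = _ := mul_one _
  apply le_antisymm (hle s i j)
  have h2 : s ≤ s * n := Nat.le_mul_of_pos_right s O.n1
  have h3 := hle (s * n - s) (i + s) (j + s)
  rw [show i + s + (s * n - s) = i + s * n by omega, show j + s + (s * n - s) = j + s * n by omega,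
    per_mul' O, per_mul' O] at h3
  exact h3

include T in
lemma shift0 (O : Orb v φ y n R) (M t : ℕ) : v (y (t + M) - y t) = v (y M - y 0) := by
  have := shift T O M 0 t
  rwa [zero_add, add_comm M t] at this

lemma Pd_cmp (O : Orb v φ y n R) {ρ : ℤᵐ⁰} {i j i' j' : ℕ} (h1 : v (y i - y i') ≤ ρ * R)
    (h2 : v (y j - y j') ≤ ρ * R) (s : ℕ) : v (Pd T y i j s - Pd T y i' j' s) ≤ ρ := by
  induction s with
  | zero => simp [Pd]
  | succ s ih =>
    have hg : v (T.h (y (i + s)) (y (j + s)) - T.h (y (i' + s)) (y (j' + s))) ≤ ρ := by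
      have h3 := (g_le T O).2 (i + s) (j + s) (i' + s) (j' + s)
      rw [shift T O, shift T O] at h3
      exact le_of_mul_le_mul_right (h3.trans (max_le h1 h2)) O.R0
    have e : Pd T y i j (s + 1) - Pd T y i' j' (s + 1) =
        (Pd T y i j s - Pd T y i' j' s) * T.h (y (i + s)) (y (j + s)) +
        Pd T y i' j' s * (T.h (y (i + s)) (y (j + s)) - T.h (y (i' + s)) (y (j' + s))) := by
      unfold Pd
      rw [prod_range_succ, prod_range_succ]; ring
    rw [e]
    refine (Valuation.map_add _ _ _).trans (max_le ?_ ?_)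
    · rw [map_mul]
      calc _ ≤ ρ * 1 := mul_le_mul' ih ((g_le T O).1 _ _)
        _ = ρ := mul_one _
    · rw [map_mul]
      calc _ ≤ 1 * ρ := mul_le_mul' (Pd_le T O _ _ _) hg
        _ = ρ := one_mul _

lemma Pd_add (i j s s' : ℕ) : Pd T y i j (s + s') = Pd T y i j s * Pd T y (i + s) (j + s) s' := by
  unfold Pd
  rw [prod_range_add]
  congr 1
  apply prod_congr rfl
  intro l _
  rw [add_assoc, add_assoc]

/-- at the time `M` the orbit moves by at most `ρ R`, with multiplier `1 + O(ε)` -/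
structure Good (T : TameL v φ) (y : ℕ → K) (R : ℤᵐ⁰) (M : ℕ) (ρ ε : ℤᵐ⁰) : Prop where
  dist : v (y M - y 0) ≤ ρ * R
  mult : ∀ t, v (Pd T y (t + M) t M - 1) ≤ ε

lemma mul_close {a b : K} {ε : ℤᵐ⁰} (ha : v (a - 1) ≤ ε) (hb : v (b - 1) ≤ ε) (hb1 : v b ≤ 1) :
    v (a * b - 1) ≤ ε := by
  have e : a * b - 1 = (a - 1) * b + (b - 1) := by ring
  rw [e]
  refine (Valuation.map_add _ _ _).trans (max_le ?_ hb)
  rw [map_mul]
  calc _ ≤ ε * 1 := mul_le_mul' ha hb1
    _ = ε := mul_one _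

lemma Pd_mult (O : Orb v φ y n R) {M : ℕ} {ε : ℤᵐ⁰} (h : ∀ t, v (Pd T y (t + M) t M - 1) ≤ ε) (t s : ℕ) :
    v (Pd T y (t + M) t (s * M) - 1) ≤ ε := by
  induction s with
  | zero => simp [Pd]
  | succ s ih =>
    rw [show (s + 1) * M = s * M + M by ring, Pd_add]
    apply mul_close ih _ (Pd_le T O _ _ _)
    have := h (t + s * M)
    rwa [show t + s * M + M = t + M + s * M by ring] at this

lemma sumG (O : Orb v φ y n R) {M : ℕ} {ε : ℤᵐ⁰} (h : ∀ t, v (Pd T y (t + M) t M - 1) ≤ ε) (t s : ℕ) :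
    ∃ G : K, y (t + s * M) - y t = (y (t + M) - y t) * G ∧ v (G - s) ≤ ε := by
  induction s with
  | zero => exact ⟨0, by simp, by simp⟩
  | succ s ih =>
    obtain ⟨G, h1, h2⟩ := ih
    refine ⟨G + Pd T y (t + M) t (s * M), ?_, ?_⟩
    · have h3 := diffs T O (t + M) t (s * M)
      rw [mul_add, ← h1, ← h3, show t + (s + 1) * M = t + M + s * M by ring]
      ring
    · have e : G + Pd T y (t + M) t (s * M) - ((s + 1 : ℕ) : K) = (G - s) + (Pd T y (t + M) t (s * M) - 1) := by
        push_cast; ring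
      rw [e]
      exact (Valuation.map_add _ _ _).trans (max_le h2 (Pd_mult T O h t s))

lemma v_le_of_close {G : K} {c : K} {ε : ℤᵐ⁰} (h : v (G - c) ≤ ε) : v G ≤ max (v c) ε := by
  have e : G = c + (G - c) := by ring
  rw [e]
  exact (Valuation.map_add _ _ _).trans (max_le_max le_rfl h)

lemma dist_mul_le (hv : IsPlace v p q) (O : Orb v φ y n R) {M : ℕ} {ε : ℤᵐ⁰} (hε : ε ≤ 1)
    (h : ∀ t, v (Pd T y (t + M) t M - 1) ≤ ε) (t s : ℕ) : v (y (t + s * M) - y t) ≤ v (y M - y 0) := by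
  obtain ⟨G, h1, h2⟩ := sumG T O h t s
  have h3 : v G ≤ 1 := (v_le_of_close h2).trans (max_le (hv.nat_le s) hε)
  rw [h1, map_mul, shift0 T O]
  calc _ ≤ v (y M - y 0) * 1 := by gcongr
    _ = _ := mul_one _

lemma Good.next (hv : IsPlace v p q) (hp : p.Prime) (O : Orb v φ y n R) {M : ℕ} {ρ ε : ℤᵐ⁰}
    (h : Good T y R M ρ ε) (hε : ε ≤ 1) :
    Good T y R (p * M) (ρ * max (v (p : K)) ε) (max ρ (ε * max (v (p : K)) ε)) := by
  refine ⟨?_, ?_⟩
  · obtain ⟨G, h1, h2⟩ := sumG T O h.mult 0 p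
    rw [zero_add, zero_add] at h1
    rw [h1, map_mul]
    calc v (y M - y 0) * v G ≤ (ρ * R) * max (v (p : K)) ε := mul_le_mul' h.dist (v_le_of_close h2)
      _ = _ := by rw [mul_assoc, mul_comm R, ← mul_assoc]
  · intro t
    set H := Pd T y (t + M) t M with hH
    have hd : ∀ t s, v (y (t + s * M) - y t) ≤ ρ * R := fun t s =>
      (dist_mul_le T hv O hε h.mult t s).trans h.dist
    have h1 : v (Pd T y (t + p * M) t (p * M) - Pd T y (t + M) t (p * M)) ≤ ρ := by
      apply Pd_cmp T O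
      · have := hd (t + M) (p - 1)
        rwa [show t + M + (p - 1) * M = t + p * M by
          obtain ⟨p', rfl⟩ : ∃ p', p = p' + 1 := ⟨p - 1, by have := hp.pos; omega⟩
          rw [Nat.add_sub_cancel]; ring] at this
      · simp
    have hHle : v H ≤ 1 := Pd_le T O _ _ _
    have h2 : ∀ s, v (Pd T y (t + M) t (s * M) - H ^ s) ≤ ρ := by
      intro s
      induction s with
      | zero => simp [Pd]
      | succ s ih =>
        have h3 : v (Pd T y (t + M + s * M) (t + s * M) M - H) ≤ ρ :=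
          Pd_cmp T O (hd (t + M) s) (hd t s) M
        have e : Pd T y (t + M) t ((s + 1) * M) - H ^ (s + 1) =
            (Pd T y (t + M) t (s * M) - H ^ s) * H +
            Pd T y (t + M) t (s * M) * (Pd T y (t + M + s * M) (t + s * M) M - H) := by
          rw [show (s + 1) * M = s * M + M by ring, Pd_add, pow_succ]; ring
        rw [e]
        refine (Valuation.map_add _ _ _).trans (max_le ?_ ?_)
        · rw [map_mul]
          calc _ ≤ ρ * 1 := mul_le_mul' ih hHle
            _ = ρ := mul_one _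
        · rw [map_mul]
          calc _ ≤ 1 * ρ := mul_le_mul' (Pd_le T O _ _ _) h3
            _ = ρ := one_mul _
    have h3 : ∀ s : ℕ, v (H ^ s - 1) ≤ ε := by
      intro s
      induction s with
      | zero => simp
      | succ s ih =>
        rw [pow_succ]
        exact mul_close ih (h.mult t) hHle
    have h4 : v (∑ i ∈ range p, H ^ i - (p : K)) ≤ ε := by
      have e : ∑ i ∈ range p, H ^ i - (p : K) = ∑ i ∈ range p, (H ^ i - 1) := by
        rw [sum_sub_distrib, sum_const, card_range, nsmul_eq_mul, mul_one]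
      rw [e]
      exact Valuation.map_sum_le _ fun i _ => h3 i
    have h5 : v (H ^ p - 1) ≤ ε * max (v (p : K)) ε := by
      have e : H ^ p - 1 = (∑ i ∈ range p, H ^ i) * (H - 1) := (geom_sum_mul H p).symm
      rw [e, map_mul, mul_comm]
      exact mul_le_mul' (h.mult t) (v_le_of_close h4)
    have e : Pd T y (t + p * M) t (p * M) - 1 = (Pd T y (t + p * M) t (p * M) - Pd T y (t + M) t (p * M)) +
        ((Pd T y (t + M) t (p * M) - H ^ p) + (H ^ p - 1)) := by ring
    rw [e]
    refine (Valuation.map_add _ _ _).trans (max_le (h1.trans (le_max_left _ _)) ?_)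
    exact (Valuation.map_add _ _ _).trans (max_le ((h2 p).trans (le_max_left _ _)) (h5.trans (le_max_right _ _)))

lemma Good.mono {M : ℕ} {ρ ε ρ' ε' : ℤᵐ⁰} (h : Good T y R M ρ ε) (h1 : ρ ≤ ρ') (h2 : ε ≤ ε') :
    Good T y R M ρ' ε' :=
  ⟨h.dist.trans (mul_le_mul' h1 le_rfl), fun t => (h.mult t).trans h2⟩

end

end Pool.Agent.TH78.OP
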