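import Pool.Agent.H504D.Tame

set_option autoImplicit false

open Finset Pool.Agent.H504R2 Pool.Agent.H504D
open scoped WithZero

namespace Pool.Agent.TH78.OP

variable {K : Type} [Field K] {v : Valuation K ℤᵐ⁰} {p q : ℕ}

section small

variable {M c : ℤᵐ⁰}

lemma sqm_add_le {a b : K} (ha : v a ^ 2 * M ≤ c) (hb : v b ^ 2 * M ≤ c) : v (a + b) ^ 2 * M ≤ c := by
  rcases le_total (v a) (v b) with h | h
  · exact (mul_le_mul' (pow_le_pow_left₀ zero_le ((Valuation.map_add v a b).trans (max_le h le_rfl)) 2)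
      le_rfl).trans hb
  · exact (mul_le_mul' (pow_le_pow_left₀ zero_le ((Valuation.map_add v a b).trans (max_le le_rfl h)) 2)
      le_rfl).trans ha

lemma sqm_sub_le {a b : K} (ha : v a ^ 2 * M ≤ c) (hb : v b ^ 2 * M ≤ c) : v (a - b) ^ 2 * M ≤ c := by
  rw [sub_eq_add_neg]
  exact sqm_add_le ha (by rwa [Valuation.map_neg])

/-- the cofactors are Lipschitz -/
lemma kh_sub_le (hv : IsPlace v p q) {A X X' Y : K} (hX : v X ^ 2 ≤ M) (hX' : v X' ^ 2 ≤ M)
    (hY : v Y ^ 2 ≤ M) (hA : v A ≤ M) (m : ℕ) :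
    v (kh A X Y (m + 1) - kh A X' Y (m + 1)) ^ 2 * M ≤ M ^ m * v (X - X') ^ 2 := by
  have hA2 : v A ^ 2 ≤ M ^ 2 := pow_le_pow_left₀ zero_le hA 2
  induction m using Nat.twoStepInduction with
  | zero => simp [kh]
  | one =>
    have : kh A X Y (1 + 1) - kh A X' Y (1 + 1) = X - X' := by simp [kh, dk]
    rw [this, pow_one, mul_comm]
  | more m h1 h2 =>
    have e : kh A X Y (m + 2 + 1) - kh A X' Y (m + 2 + 1) = (dk A X (m + 2) - dk A X' (m + 2)) +
        Y * (kh A X Y (m + 1 + 1) - kh A X' Y (m + 1 + 1)) - A * (kh A X Y (m + 1) - kh A X' Y (m + 1)) := by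
      have e1 : kh A X Y (m + 2 + 1) = dk A X (m + 2) + Y * kh A X Y (m + 1 + 1) - A * kh A X Y (m + 1) := rfl
      have e2 : kh A X' Y (m + 2 + 1) = dk A X' (m + 2) + Y * kh A X' Y (m + 1 + 1) - A * kh A X' Y (m + 1) := rfl
      rw [e1, e2]; ring
    rw [e]
    apply sqm_sub_le
    · apply sqm_add_le
      · rw [dk_sub, map_mul, mul_pow]
        have h3 := kh_le hv hX hX' hA (m + 1)
        calc v (X - X') ^ 2 * v (kh A X X' (m + 1 + 1)) ^ 2 * M ≤ v (X - X') ^ 2 * M ^ (m + 1) * M := by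
              gcongr
          _ = M ^ (m + 2) * v (X - X') ^ 2 := by
              rw [mul_assoc, ← pow_succ, mul_comm]
      · rw [map_mul, mul_pow]
        calc v Y ^ 2 * v (kh A X Y (m + 1 + 1) - kh A X' Y (m + 1 + 1)) ^ 2 * M
            = v Y ^ 2 * (v (kh A X Y (m + 1 + 1) - kh A X' Y (m + 1 + 1)) ^ 2 * M) := mul_assoc _ _ _
          _ ≤ M * (M ^ (m + 1) * v (X - X') ^ 2) := mul_le_mul' hY h2
          _ = M ^ (m + 2) * v (X - X') ^ 2 := by rw [← mul_assoc, ← pow_succ']
    · rw [map_mul, mul_pow]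
      calc v A ^ 2 * v (kh A X Y (m + 1) - kh A X' Y (m + 1)) ^ 2 * M
          = v A ^ 2 * (v (kh A X Y (m + 1) - kh A X' Y (m + 1)) ^ 2 * M) := mul_assoc _ _ _
        _ ≤ M ^ 2 * (M ^ m * v (X - X') ^ 2) := mul_le_mul' hA2 h1
        _ = M ^ (m + 2) * v (X - X') ^ 2 := by rw [← mul_assoc, ← pow_add, add_comm 2 m]

end small

/-- Self-maps of `K` with cofactors which are monotone and Lipschitz at every scale. -/
structure TameL (v : Valuation K ℤᵐ⁰) (φ : K → K) where
  h : K → K → K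
  eq : ∀ x y, φ x - φ y = (x - y) * h x y
  symm : ∀ x y, h x y = h y x
  ne : ∀ x y, x ≠ y → h x y ≠ 0
  mono : ∀ x y z, x ≠ z → v (x - y) ≤ v (x - z) → v (h x y) ≤ v (h x z)
  lip : ∀ a b x x' y, a ≠ b → v (x - a) ≤ v (a - b) → v (x' - a) ≤ v (a - b) →
    v (y - a) ≤ v (a - b) → v (h x y - h x' y) * v (a - b) ≤ v (h a b) * v (x - x')

namespace TameL

variable {φ ψ : K → K}

/-- forget the Lipschitz constant -/
def toTame (T : TameL v φ) : Tame v φ where
  h := T.h
  eq := T.eq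
  symm := T.symm
  ne := T.ne
  mono := T.mono
  cont a b x x' y hab hx hx' hy hxx := by
    have h1 := T.lip a b x x' y hab hx hx' hy
    have hR := Tame.pos_of_ne (v := v) hab
    have hpos : 0 < v (T.h a b) := zero_lt_iff.2 ((Valuation.ne_zero_iff v).2 (T.ne a b hab))
    have h2 : v (T.h x y - T.h x' y) * v (a - b) < v (T.h a b) * v (a - b) :=
      lt_of_le_of_lt h1 (mul_lt_mul_of_pos_left hxx hpos)
    exact lt_of_mul_lt_mul_right h2 zero_le

lemma le_max (T : TameL v φ) {a b x y : K} (hab : a ≠ b) (hx : v (x - a) ≤ v (a - b))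
    (hy : v (y - a) ≤ v (a - b)) : v (T.h x y) ≤ v (T.h a b) := T.toTame.le_max hab hx hy

lemma map_ne (T : TameL v φ) {a b : K} (hab : a ≠ b) : φ a ≠ φ b := T.toTame.map_ne hab

lemma v_map (T : TameL v φ) (a b : K) : v (φ a - φ b) = v (a - b) * v (T.h a b) := T.toTame.v_map a b

/-- composition -/
def comp (T : TameL v φ) (S : TameL v ψ) : TameL v (fun x => ψ (φ x)) where
  h x y := T.h x y * S.h (φ x) (φ y)
  eq x y := by rw [S.eq, T.eq]; ring
  symm x y := by rw [T.symm, S.symm]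
  ne x y hxy := mul_ne_zero (T.ne x y hxy) (S.ne _ _ (T.map_ne hxy))
  mono x y z hxz hle := (T.toTame.comp S.toTame).mono x y z hxz hle
  lip a b x x' y hab hx hx' hy := by
    have hR := Tame.pos_of_ne (v := v) hab
    have hφ : ∀ z, v (z - a) ≤ v (a - b) → v (φ z - φ a) ≤ v (φ a - φ b) := by
      intro z hz
      rw [T.v_map, T.v_map]
      exact mul_le_mul' hz (T.le_max hab hz (by simp))
    have hne := T.map_ne hab
    have h1 := T.lip a b x x' y hab hx hx' hy
    have hpos : 0 < v (T.h a b) := zero_lt_iff.2 ((Valuation.ne_zero_iff v).2 (T.ne a b hab))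
    have h3 := S.lip (φ a) (φ b) (φ x) (φ x') (φ y) hne (hφ x hx) (hφ x' hx') (hφ y hy)
    have h4 : v (S.h (φ x) (φ y)) ≤ v (S.h (φ a) (φ b)) := S.le_max hne (hφ x hx) (hφ y hy)
    have h5 : v (T.h x' y) ≤ v (T.h a b) := T.le_max hab hx' hy
    have h6 : v (T.h x x') ≤ v (T.h a b) := T.le_max hab hx hx'
    have h7 : v (S.h (φ x) (φ y) - S.h (φ x') (φ y)) * v (a - b) ≤ v (S.h (φ a) (φ b)) * v (x - x') := by
      rw [T.v_map, T.v_map] at h3
      have h8 : v (S.h (φ x) (φ y) - S.h (φ x') (φ y)) * v (a - b) * v (T.h a b) ≤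
          v (S.h (φ a) (φ b)) * v (x - x') * v (T.h a b) := by
        calc v (S.h (φ x) (φ y) - S.h (φ x') (φ y)) * v (a - b) * v (T.h a b)
            = v (S.h (φ x) (φ y) - S.h (φ x') (φ y)) * (v (a - b) * v (T.h a b)) := mul_assoc _ _ _
          _ ≤ v (S.h (φ a) (φ b)) * (v (x - x') * v (T.h x x')) := h3
          _ ≤ v (S.h (φ a) (φ b)) * (v (x - x') * v (T.h a b)) := by gcongr
          _ = _ := (mul_assoc _ _ _).symm
      exact le_of_mul_le_mul_right h8 hpos
    have e : T.h x y * S.h (φ x) (φ y) - T.h x' y * S.h (φ x') (φ y) =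
        (T.h x y - T.h x' y) * S.h (φ x) (φ y) + T.h x' y * (S.h (φ x) (φ y) - S.h (φ x') (φ y)) := by
      ring
    have t1 : v ((T.h x y - T.h x' y) * S.h (φ x) (φ y)) * v (a - b) ≤
        v (T.h a b * S.h (φ a) (φ b)) * v (x - x') := by
      rw [map_mul, map_mul]
      calc v (T.h x y - T.h x' y) * v (S.h (φ x) (φ y)) * v (a - b)
          = (v (T.h x y - T.h x' y) * v (a - b)) * v (S.h (φ x) (φ y)) := by
            rw [mul_assoc, mul_comm (v (S.h (φ x) (φ y))), ← mul_assoc]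
        _ ≤ (v (T.h a b) * v (x - x')) * v (S.h (φ a) (φ b)) := mul_le_mul' h1 h4
        _ = _ := by rw [mul_assoc, mul_comm (v (x - x')), ← mul_assoc]
    have t2 : v (T.h x' y * (S.h (φ x) (φ y) - S.h (φ x') (φ y))) * v (a - b) ≤
        v (T.h a b * S.h (φ a) (φ b)) * v (x - x') := by
      rw [map_mul, map_mul, mul_assoc, mul_assoc]
      exact mul_le_mul' h5 h7
    rw [e]
    rcases le_total (v ((T.h x y - T.h x' y) * S.h (φ x) (φ y)))
      (v (T.h x' y * (S.h (φ x) (φ y) - S.h (φ x') (φ y)))) with h9 | h9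
    · exact (mul_le_mul' ((Valuation.map_add _ _ _).trans (max_le h9 le_rfl)) le_rfl).trans t2
    · exact (mul_le_mul' ((Valuation.map_add _ _ _).trans (max_le le_rfl h9)) le_rfl).trans t1

/-- affine maps -/
def affine (α β : K) (hα : α ≠ 0) : TameL v (fun x => α * x + β) where
  h _ _ := α
  eq x y := by ring
  symm _ _ := rfl
  ne _ _ _ := hα
  mono _ _ _ _ _ := le_rfl
  lip a b x x' y hab _ _ _ := by
    rw [sub_self, map_zero, zero_mul]
    exact zero_le

/-- Dickson polynomials (power maps when `A = 0`) -/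
noncomputable def dickson (hv : IsPlace v p q) (hp : p.Prime) (hq : ∃ f, q = p ^ f) {m : ℕ} {A : K}
    (hm : Adm p q m A) : TameL v (fun x => dk A x m) where
  h x y := kh A x y m
  eq x y := dk_sub A x y m
  symm x y := kh_comm A x y m
  ne x y hxy := (Tame.dickson hv hp hq hm).ne x y hxy
  mono x y z hxz hle := (Tame.dickson hv hp hq hm).mono x y z hxz hle
  lip a b x x' y hab hx hx' hy := by
    have hmax : max (v a) (v b) ^ 2 ≤ W3 v A a b := by
      unfold W3
      refine le_trans ?_ (le_max_left _ _)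
      rcases le_total (v a) (v b) with h3 | h3
      · rw [max_eq_right h3]; exact le_max_right _ _
      · rw [max_eq_left h3]; exact le_max_left _ _
    have hR : v (a - b) ≤ max (v a) (v b) := Valuation.map_sub _ _ _
    have hz : ∀ z, v (z - a) ≤ v (a - b) → v z ^ 2 ≤ W3 v A a b := by
      intro z hz
      have h4 : v z ≤ max (v a) (v b) := by
        have e : z = (z - a) + a := by ring
        calc v z = v ((z - a) + a) := by rw [← e]
          _ ≤ max (v (z - a)) (v a) := Valuation.map_add _ _ _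
          _ ≤ max (v a) (v b) := max_le (hz.trans hR) (le_max_left _ _)
      exact (pow_le_pow_left₀ zero_le h4 2).trans hmax
    have hA : v A ≤ W3 v A a b := le_max_right _ _
    obtain ⟨m', hm'⟩ : ∃ m', m = m' + 1 := ⟨m - 1, by have := hm.pos; omega⟩
    have h1 := kh_sub_le hv (hz x hx) (hz x' hx') (hz y hy) hA m'
    have h2 := v_kh hv hp hq hm a b
    rw [hm'] at h2 ⊢
    rw [Nat.add_sub_cancel] at h2
    rw [← h2] at h1
    have h3 : v (a - b) ^ 2 ≤ W3 v A a b := (pow_le_pow_left₀ zero_le hR 2).trans hmax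
    have h4 : (v (kh A x y (m' + 1) - kh A x' y (m' + 1)) * v (a - b)) ^ 2 ≤
        (v (kh A a b (m' + 1)) * v (x - x')) ^ 2 := by
      rw [mul_pow, mul_pow]
      exact (mul_le_mul' le_rfl h3).trans h1
    by_contra hcon
    rw [not_le] at hcon
    exact absurd h4 (not_le.2 (pow_lt_pow_left₀ hcon zero_le two_ne_zero))

end TameL

end Pool.Agent.TH78.OP
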